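import Pool.Agent.FMO.All

/-!
# MP_3af9db_ag: equations with few monomials, actions of tori

All definitions used by the statement are in `Pool/Agent/FMO/Defs.lean`, `Pool/Agent/FMO/Defs2.lean` and
`Pool/Agent/UQ/Defs.lean` (and the varieties and the dimension of points in
`Pool/Agent/Lib_helper55/Beil/Defs.lean`).

`Th k E` is a homology theory with the maps of l-adic homology; `Th.Pub` is the list of its published
properties which are used.

* `Few m f`: the equations have at most two monomials, except for at most `m` equations with three;
  `Add m f`: the system needs only `m` additions, in addition to one for every equation: there are
  polynomials `s_1, ..., s_m` such that every `s_i` is a sum of two terms in the variables and the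
  previous `s_j`, and every `f_j` is a sum of two terms in the variables and the `s_j`.
  `Few m f` implies `Add m f`, and polynomials with at most `m + 2` monomials satisfy `Add m`.
* `Comp k m F`: the field `F` is contained in a compositum of `m` fields of transcendence degree at
  most one over `k`; `CompX m X`: this holds for all residue fields of the variety `X`.
* `Surf T Φ`: the conjecture of Tate for divisors on the smooth proper surfaces whose function field has
  the property `Φ`, and the resolution of singularities of surfaces; `Tate66`: this for the surfaces
  dominated by products of two curves (`Φ = Comp k 2`; theorems of Tate and Abhyankar).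
* `Sparse T`: the generalised Beilinson conjecture `Q1` for the affine and projective zero sets of the
  systems with two additional additions, for the varieties `X` with `CompX 2 X`, and for affine
  varieties with an action of a torus, if the fields generated by the monomials of degree zero at the
  points are `Comp k 2`.
* `Torus T Φ`: the same for the varieties and for the actions of tori, if these fields have
  transcendence degree at most one, or have transcendence degree two and the property `Φ`.
* `SparseT T`: the conjecture of Tate for systems with `m` additional additions follows from the
  conjecture of Tate for the varieties `X` with `CompX m X`, and the conjecture of Tate in dimension at most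
  `d` implies it for the actions of tori of complexity at most `d`.
-/

set_option autoImplicit false

universe v

namespace Pool.Agent.Results.MP_3af9db_ag.FewMonomials

open Pool.Agent.FMO UQ

/-- See the description at the beginning of this file. -/
theorem result (k : Type) [Field k] [Finite k] :
    (∀ (m n : ℕ) (ι : Type) (f : ι → MvPolynomial (Fin n) k), Few m f → Add m f) ∧
    (∀ (m n : ℕ) (p : MvPolynomial (Fin n) k), p.support.card ≤ m + 2 →
      Add m (fun _ : Fin 1 => p)) ∧
    ∀ (E : Type) [Field E] [CharZero E] (T : Th.{v} k E), T.Pub →
      (Tate66 T → Sparse T) ∧
      (∀ Φ : ∀ (F : Type) [Field F] [Algebra k F], Prop, Pool.Agent.FMO.Inv k Φ → Surf T Φ → Torus T Φ) ∧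
      SparseT T :=
  ⟨t_FEW k, t_MNO k, fun E _ _ T hT => ⟨(fin k E T hT).2.1, (fin k E T hT).1, (fin k E T hT).2.2⟩⟩

end Pool.Agent.Results.MP_3af9db_ag.FewMonomials
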