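import Pool.Agent.OCY.ASM3

/-!
# MP_3af9db_ag: the conjecture for open subvarieties: exact criterion, one-cycles, threefolds

All definitions used by the statement are in `Pool/Agent/OCY/Defs2.lean`, `Pool/Agent/OCY/Defs.lean`,
`Pool/Agent/OCY/Base.lean` (and the varieties and the dimension of points in
`Pool/Agent/Lib_helper55/Beil/Defs.lean`).

`Th k E` is a homology theory with the maps of l-adic homology; `Th.Pub`, `Facts` and `Top` are the lists of
the published properties which are used (localisation, weights, classes of cycles, line bundles, Poincare
duality, descent for proper surjective morphisms, zero-cycles, push-forward and rational equivalence, the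
homology in degree twice the dimension).
`Q1at T i V`: the class map `cl_i` is bijective onto the invariants of Frobenius for `V`, and the eigenvalue
one of Frobenius is semisimple; `T.Q1 V`: this for all `i`.

* `Open.criterion`: let `X` be smooth proper of dimension `d + i` with the conjecture for `i`-cycles and for
  `d`-cycles, `Z` closed in `X`, `V = X - Z`.  The conjecture for `i`-cycles holds for `V` if and only if the
  algebraic classes of codimension `i` on `X` which are numerically trivial on `Z` are homologically trivial
  on `Z`.  (The conjecture of Tate for `Z` is not needed.)
* `Smoothly`: with alterations it suffices to have this for the morphisms `W → X` from smooth proper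
  varieties `W` of dimension at most `dim Z` (a case of the equality of numerical and homological
  equivalence on `W`).
* `Open.removal`: if `X` satisfies `Q1` and `dim Z ≤ 2` then `V` satisfies `Q1`.
* `Main.threefolds`: if a smooth proper threefold satisfies `Q1`, then so does every open subvariety.
* More generally let `U` be any open subvariety of a smooth proper variety `X` and let `g : U → V` be proper
  and surjective (`V` may be singular, for example `V = U`, `V = U / G`, or any open subvariety of a proper
  image of `X`).  If `X` satisfies the conjecture for one-cycles and for divisors, then `V` satisfies the
  conjecture for one-cycles (`Main.onecycles`); if `X` satisfies `Q1`, then `V` satisfies the conjecture for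
  `i`-cycles with `i ≤ 1` or `i ≥ dim V - 1` (`Main.outer`).
* `Main.inj`: the injectivity for one-cycles needs only that on `X` numerically trivial one-cycles are
  rationally equivalent to zero (no case of the conjecture of Tate).
* `MainProducts`: products of curves (theorems of Tate and Soule).
* `Reduction`: with alterations, for all varieties of dimension at most `d` the injectivity for one-cycles
  follows from the one for numerical equivalence on smooth proper varieties of dimension at most `d`.
-/

set_option autoImplicit false

universe v

namespace Pool.Agent.Results.MP_3af9db_ag.OneCyclesOnOpenSubvarieties

open OCB OCY

/-- See the description at the beginning of this file. -/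
theorem result (k E : Type) [Field k] [Finite k] [Field E] [CharZero E] (T : Th.{v} k E)
    (hT : T.Pub) (hF : Facts T) :
    (Top T → Open T) ∧ Main T ∧ (Products T → MainProducts T) ∧
      (DeJong k → Smoothly T ∧ Reduction T) :=
  ⟨ASM3_aux.open_main hT hF, main hT hF, mainProducts hT hF,
    fun hJ => ⟨ASM3_aux.smoothly hT hF hJ, reduction hT hF hJ⟩⟩

end Pool.Agent.Results.MP_3af9db_ag.OneCyclesOnOpenSubvarieties
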