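import Pool.Agent.H1T.Gen
import Pool.Agent.GT4.Fin3

/-!
# MP_3af9db_ag: Tate classes on all products of elliptic curves and abelian surfaces over finite fields

By Honda and Tate the isogeny classes of abelian varieties of dimension `g` over the field `k` with
`q` elements are described by real Weil polynomials `h` of degree `g`: the eigenvalues of Frobenius on
`H ^ 1` are the `r` with `h (r + q / r) = 0`.  For `g = 1`, `2` the `h` which occur are in `Elliptic q` and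
`Surfaces q` (Waterhouse, Rueck, Maisner and Nart); these sets contain a few more supersingular
polynomials, which do not change the admissible eigenvalues below.

We consider ALL smooth projective varieties `X` over `k` which are, over the algebraic closure of `k`, images of
products of abelian varieties of dimension at most 2 over `k` and supersingular abelian
varieties, for instance all products of curves of genus at most 2 over `k`, any number of factors, and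
ALL Tate classes: if `V` is `H ^ 1 (Abar, Qlbar)` of an abelian variety `A` with the (semisimple)
Frobenius `F`, then `H ^ (2 j)` is the `2 j`-th exterior power of `V`, and the geometric Tate classes are
the `x` with `F ^ N x = q ^ (j N) x` for some `N ≥ 1`.  The theorem decides exactly when all of them are
polynomials in divisor classes.
-/

set_option autoImplicit false

open Polynomial

namespace Pool.Agent.Results.MP_3af9db_ag.ProductsOfSurfaces

/-- Real Weil polynomials of degree `g`: monic, all roots are real and in `[-2√q, 2√q]`. -/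
def RealWeil (g q : ℕ) (h : ℤ[X]) : Prop :=
  h.Monic ∧ h.natDegree = g ∧ ∀ z : ℂ, aeval z h = 0 → z.im = 0 ∧ |z.re| ≤ 2 * Real.sqrt q

/-- The elliptic curves over the field with `q` elements, `h = x + A`. -/
def Elliptic (q : ℕ) : Set ℤ[X] :=
  {h | RealWeil 1 q h ∧ (¬ (q.minFac : ℤ) ∣ h.coeff 0 ∨ (q : ℤ) ∣ h.coeff 0 ^ 2)}

/-- The discriminant `D = A ^ 2 - 4 B` of `h = x ^ 2 + A x + B`. -/
def D (h : ℤ[X]) : ℤ := h.coeff 1 ^ 2 - 4 * h.coeff 0

/-- `D' = (B + 4 q) ^ 2 - 4 q A ^ 2`. -/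
def D' (q : ℕ) (h : ℤ[X]) : ℤ := (h.coeff 0 + 4 * q) ^ 2 - 4 * q * h.coeff 1 ^ 2

/-- `N` is the square of a `p`-adic integer. -/
def PadicSquare (p : ℕ) (N : ℤ) : Prop := ∀ k : ℕ, ∃ x : ℤ, (p : ℤ) ^ k ∣ x ^ 2 - N

/-- Surfaces of `p`-rank one. -/
def RankOne (q : ℕ) (h : ℤ[X]) : Prop :=
  (q.minFac : ℤ) ∣ h.coeff 0 ∧ ¬ (q.minFac : ℤ) ∣ h.coeff 1 ∧ (q : ℤ) ∣ h.coeff 0 ^ 2 ∧
    (D' q h = 0 ∨ ¬ PadicSquare q.minFac (D' q h))

/-- Supersingular surfaces. -/
def Supersingular (q : ℕ) (h : ℤ[X]) : Prop := (q : ℤ) ∣ h.coeff 1 ^ 2 ∧ (q : ℤ) ∣ h.coeff 0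

/-- The abelian surfaces over the field with `q` elements: ordinary, of `p`-rank one, or
supersingular. -/
def Surfaces (q : ℕ) : Set ℤ[X] :=
  {h | RealWeil 2 q h ∧ (¬ (q.minFac : ℤ) ∣ h.coeff 0 ∨ RankOne q h ∨ Supersingular q h)}

/-- `D`, `D'` and `D D'` are not squares: the Galois group is dihedral of order eight. -/
def Dihedral (q : ℕ) (h : ℤ[X]) : Prop :=
  ¬ IsSquare (D h) ∧ ¬ IsSquare (D' q h) ∧ ¬ IsSquare (D h * D' q h)

/-- Reflex pairs of surfaces: the CM field of `h'` is the reflex field of the one of `h`. -/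
def Reflex (q : ℕ) (h h' : ℤ[X]) : Prop :=
  h.natDegree = 2 ∧ h'.natDegree = 2 ∧ (Dihedral q h ∧ ¬ Supersingular q h) ∧
    (Dihedral q h' ∧ ¬ Supersingular q h') ∧
    ∃ n m w : ℤ, n ^ 2 = D h * D' q h' ∧ m ^ 2 = D' q h * D h' ∧
      (h.coeff 1 ^ 2 - 2 * h.coeff 0 - 8 * q) * (h'.coeff 1 ^ 2 - 2 * h'.coeff 0 - 8 * q) +
        2 * h.coeff 1 * n + 2 * h'.coeff 1 * m = w ^ 2 ∧
      (w = 0 → IsSquare (-(D h * h'.coeff 1 * m)))

/-- Good sets of isogeny classes: there is no reflex pair with a member which is not ordinary, and two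
reflex partners of the same member are equal or twists of each other. -/
def Good (q : ℕ) (S : Set ℤ[X]) : Prop :=
  (∀ h ∈ S, ∀ h' ∈ S, (q.minFac : ℤ) ∣ h.coeff 0 ∨ (q.minFac : ℤ) ∣ h'.coeff 0 →
    ¬ Reflex q h h') ∧
  ∀ h ∈ S, ∀ h' ∈ S, ∀ h'' ∈ S, Reflex q h h' → Reflex q h h'' →
    h''.coeff 0 = h'.coeff 0 ∧ (h''.coeff 1 = h'.coeff 1 ∨ h''.coeff 1 = - h'.coeff 1)

/-- Admissible eigenvalues: up to roots of unity, supersingular or an eigenvalue of a member of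
`S`. -/
def Adm (q : ℕ) (S : Set ℤ[X]) {K : Type} [Field K] (z : K) : Prop :=
  ∃ N : ℕ, 1 ≤ N ∧ (z ^ (2 * N) = (q : K) ^ N ∨
    ∃ h ∈ S, ∃ r : K, r ≠ 0 ∧ aeval (r + q / r) h = 0 ∧ z ^ N = r ^ N)

/-- Geometric Tate classes of degree `2 j`. -/
def TateClasses {K V : Type} [Field K] [AddCommGroup V] [Module K V] (F : Module.End K V)
    (q j : ℕ) : Set (ExteriorAlgebra K V) :=
  {x | x ∈ ⋀[K]^(2 * j) V ∧ ∃ N : ℕ, 1 ≤ N ∧
    ExteriorAlgebra.map (F ^ N) x = (q : K) ^ (j * N) • x}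

/-- All geometric Tate classes, on all `V` over algebraically closed fields of characteristic 0 with
a semisimple endomorphism `F` with admissible eigenvalues, are polynomials in geometric Tate classes
of degree 2. -/
def Generated (q : ℕ) (S : Set ℤ[X]) : Prop :=
  ∀ (K : Type) [Field K] [IsAlgClosed K] [CharZero K] (V : Type) [AddCommGroup V] [Module K V]
    [Module.Finite K V] (F : Module.End K V), F.IsSemisimple →
    (∀ z : K, F.charpoly.IsRoot z → Adm q S z) →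
    ∀ j : ℕ, TateClasses F q j ⊆ Algebra.adjoin K (TateClasses F q 1)

theorem tate_one {K : Type} [Field K] {V : Type} [AddCommGroup V] [Module K V]
    (F : Module.End K V) (q : ℕ) : TateClasses F q 1 = TJ3.Deg2g F (q : K) := by
  have key : ∀ x, x ∈ TateClasses F q 1 ↔ x ∈ TJ3.Deg2g F (q : K) := by
    intro x
    constructor
    · rintro ⟨h1, N, hN, h2⟩
      exact ⟨h1, N, hN, by rw [one_mul] at h2; exact h2⟩
    · rintro ⟨h1, N, hN, h2⟩
      exact ⟨h1, N, hN, by rw [one_mul]; exact h2⟩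
  exact Set.ext key

theorem generated {q : ℕ} (hq : 1 ≤ q) {S : Set ℤ[X]} (hS : ∀ h ∈ S, h.Monic)
    (hP : AlmostAll.Par q (AlmostAll.Adm q S)) : Generated q S := by
  rintro K _ _ _ V _ _ _ F hss hadm j x ⟨hx, N, hN, hFx⟩
  rw [tate_one]
  exact H1T.gen_of_par hq (fun h hh => (hS h hh).ne_zero) hP K V F hss hadm j N x hN hx hFx

theorem sub_monic {q : ℕ} {S : Set ℤ[X]} (hS : S ⊆ Elliptic q ∪ Surfaces q) :
    ∀ h ∈ S, h.Monic := by
  intro h hh
  rcases hS hh with h1 | h1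
  · exact h1.1.1
  · exact h1.1.1

theorem reflex_iff (q : ℕ) (h h' : ℤ[X]) : Reflex q h h' ↔ GT4.RxP q h h' := by
  constructor
  · rintro ⟨h1, h2, h3, h4, h5⟩
    exact ⟨h1, h2, ⟨h3.1.1, h3.1.2.1, h3.1.2.2, h3.2⟩, ⟨h4.1.1, h4.1.2.1, h4.1.2.2, h4.2⟩, h5⟩
  · rintro ⟨h1, h2, h3, h4, h5⟩
    exact ⟨h1, h2, ⟨⟨h3.1, h3.2.1, h3.2.2.1⟩, h3.2.2.2⟩, ⟨⟨h4.1, h4.2.1, h4.2.2.1⟩, h4.2.2.2⟩, h5⟩

theorem good_iff (q : ℕ) (S : Set ℤ[X]) : Good q S ↔ GT4.GxP q S := by
  constructor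
  · intro h
    exact ⟨fun g hg g' hg' hp hR => h.1 g hg g' hg' hp ((reflex_iff q g g').2 hR),
      fun g hg g' hg' g'' hg'' hR hR' => h.2 g hg g' hg' g'' hg'' ((reflex_iff q g g').2 hR)
        ((reflex_iff q g g'').2 hR')⟩
  · intro h
    exact ⟨fun g hg g' hg' hp hR => h.mx g hg g' hg' hp ((reflex_iff q g g').1 hR),
      fun g hg g' hg' g'' hg'' hR hR' => h.tp g hg g' hg' g'' hg'' ((reflex_iff q g g').1 hR)
        ((reflex_iff q g g'').1 hR')⟩

/-- without the partner property there are exotic Tate classes -/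
theorem par_of_generated {q : ℕ} (hq : 1 ≤ q) {S : Set ℤ[X]} (hG : Generated q S) :
    AlmostAll.Par q (AlmostAll.Adm q S) := by
  intro z l hz hl j N hN hj hprod
  by_contra hno
  have h1 : ∀ y ∈ l, ∀ M : ℕ, 1 ≤ M → (z * y) ^ M ≠ (q : ℂ) ^ M := fun y hy M hM h =>
    hno ⟨y, hy, M, hM, h⟩
  obtain ⟨f, hf, hroot, x, hx, hfx, hxn⟩ := GT4.t_NGE q z l j N hq hN hj hprod h1
  refine hxn (hG ℂ (Fin (2 * j) → ℂ) f hf (fun μ hμ => ?_) j ⟨hx, N, hN, hfx⟩)
  rcases List.mem_cons.1 (hroot μ hμ) with rfl | h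
  · exact hz
  · exact hl μ h

/-- the exact criterion -/
theorem generated_iff {q : ℕ} (hq : IsPrimePow q) {S : Set ℤ[X]}
    (hS : S ⊆ Elliptic q ∪ Surfaces q) : Generated q S ↔ Good q S := by
  rw [good_iff]
  constructor
  · intro h
    exact (GT4.crit hq hS).1 (par_of_generated hq.one_lt.le h)
  · intro h
    exact generated hq.one_lt.le (sub_monic hS) ((GT4.crit hq hS).2 h)

/-- **Result.** -/
theorem result :
    (∀ q : ℕ, IsPrimePow q →
      Generated q (Elliptic q ∪ {h ∈ Surfaces q | (q.minFac : ℤ) ∣ h.coeff 0 ∨ ¬ Dihedral q h})) ∧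
    (∀ q : ℕ, IsPrimePow q → q < 243 ∨ q % 4 ≠ 3 → (Generated q (Elliptic q ∪ Surfaces q) ↔
      q = 3 ∨ q = 7 ∨ q = 11 ∨ q = 27 ∨ q = 43)) ∧
    (∀ q : ℕ, IsPrimePow q → q ≤ 16 →
      Generated q (Elliptic q ∪ {h ∈ Surfaces q | ¬ (q.minFac : ℤ) ∣ h.coeff 0 ∨ ¬ Dihedral q h})) ∧
    (∀ q : ℕ, IsPrimePow q → ∀ S : Set ℤ[X], S ⊆ Elliptic q ∪ Surfaces q →
      (Generated q S ↔ Good q S)) ∧
    ∀ q : ℕ, IsPrimePow q → q % 4 = 3 → ∀ h ∈ Surfaces q, ∀ h' ∈ Surfaces q,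
      (q.minFac : ℤ) ∣ h.coeff 0 ∨ (q.minFac : ℤ) ∣ h'.coeff 0 → ¬ Reflex q h h' := by
  have e1 : ∀ q : ℕ, {h ∈ Surfaces q | (q.minFac : ℤ) ∣ h.coeff 0 ∨ ¬ Dihedral q h} = GT3.NO q := by
    intro q
    ext h
    have : ¬ Dihedral q h ↔ (IsSquare (D h) ∨ IsSquare (D' q h) ∨ IsSquare (D h * D' q h)) := by
      unfold Dihedral
      tauto
    exact and_congr Iff.rfl (or_congr Iff.rfl this)
  have e2 : ∀ q : ℕ, {h ∈ Surfaces q | ¬ (q.minFac : ℤ) ∣ h.coeff 0 ∨ ¬ Dihedral q h} =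
      GT3.OT q := by
    intro q
    ext h
    have : ¬ Dihedral q h ↔ (IsSquare (D h) ∨ IsSquare (D' q h) ∨ IsSquare (D h * D' q h)) := by
      unfold Dihedral
      tauto
    exact and_congr Iff.rfl (or_congr Iff.rfl this)
  have e5 : ∀ (q : ℕ) (S : Set ℤ[X]), IsPrimePow q → GT3.GdP q S → Generated q S :=
    fun q S hq hS => (generated_iff hq hS.sub).2 ((good_iff q S).2 (GT4.gx_of hq hS))
  refine ⟨fun q hq => e5 q _ hq ?_, fun q hq h64 => ?_, fun q hq h16 => e5 q _ hq ?_,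
    fun q hq S hS => generated_iff hq hS, fun q hq h4 h hh h' hh' hp hR => ?_⟩
  · rw [e1]
    exact GT3.gdno hq
  · rw [generated_iff hq (fun _ h => h), good_iff]
    exact GT4.full_all3 hq h64
  · rw [e2]
    exact GT3.gd16 hq h16
  · exact GT4.mx3 hq h4 h (Or.inr hh) h' (Or.inr hh') hp ((reflex_iff q h h').1 hR)

end Pool.Agent.Results.MP_3af9db_ag.ProductsOfSurfaces
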