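import Pool.Agent.TJ6.Main

/-!
# MP_3af9db_ag: Tate classes on all products of members of a set of ordinary abelian varieties

`k` is the field with `q` elements.  By Honda and Tate isogeny classes of simple abelian varieties over
`k` correspond to conjugacy classes of Weil numbers.  We describe them by real Weil polynomials
`h`: the Weil polynomial is `weil q h = x ^ g h (x + q / x)`, and its roots (`Eig q h`) are the
Frobenius eigenvalues on `H ^ 1`.  We consider

* `Small q`: the geometrically simple ordinary abelian varieties of dimension at most 3,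
* `Full q`: the ordinary abelian varieties, of any dimension, whose Weil polynomial has the largest
  possible Galois group (almost all ordinary ones),

and, for ANY set `S` of such classes, ALL abelian varieties `X` which are, over the algebraic closure of
`k`, isogenous to products with factors from `S` and supersingular ones (any factors, any
multiplicities), and ALL their Tate classes: if `V` is `H ^ 1 (Xbar, Qlbar)` with the (semisimple)
Frobenius `F`, then `H ^ (2 j)` is the `2 j`-th exterior power of `V`, and the geometric Tate classes are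
the `x` with `F ^ N x = q ^ (j N) x` for some `N ≥ 1`.

The theorem says that all Tate classes are polynomials in Tate classes of degree 2 and Weil classes
if and only if `S` is `Good`: no three surfaces in `S` have the same splitting field, no three
threefolds in `S` whose fields contain an imaginary quadratic field have the same splitting field,
and the CM types of members of `S` with the same field are linearly independent (which is automatic
for at most three of them).  Sets `R q` of proportion tending to 1 in every dimension are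
`Good`, and have no Weil classes.

Tate classes of degree 2 are combinations of divisor classes by Tate's theorem.  The Weil classes live
on products `A × E` (`dim A = 3`, `E` an ordinary elliptic curve, with the same imaginary quadratic
field), or on products `A × A'` (`dim A = dim A' = 3`), and the latter are contractions of products
of two Weil classes on `A × E` and `A' × E`; they are algebraic by Markman's theorem for abelian
fourfolds of Weil type (applied to the canonical lift of `A × E`, with a polarisation of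
discriminant 1).  So for `Good` sets `S` the cycle class maps of all these `X` are surjective, hence
bijective (last item of What is known).

The proof is in `Pool/Agent/TJ6/` (and `TJ5`, ..., `TJ2`).
-/

set_option autoImplicit false

open Polynomial Filter IntermediateField

namespace Pool.Agent.Results.MP_3af9db_ag.TateAndWeilClasses

open Pool.Agent

noncomputable section

/-- The field of algebraic numbers. -/
abbrev Qbar : Type := AlgebraicClosure ℚ

/-- Real Weil polynomials: monic integer polynomials of degree `g` whose complex roots are real and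
in `[-2√q, 2√q]`. -/
def RealWeil (g q : ℕ) : Set ℤ[X] :=
  {h | h.Monic ∧ h.natDegree = g ∧
    ∀ z : ℂ, aeval z h = 0 → z.im = 0 ∧ |z.re| ≤ 2 * Real.sqrt q}

/-- The ordinary ones: the constant coefficient is prime to `q`. -/
def Ordinary (g q : ℕ) : Set ℤ[X] := {h | h ∈ RealWeil g q ∧ ¬ (q.minFac : ℤ) ∣ h.coeff 0}

/-- The Weil polynomial `x ^ g h (x + q / x)`. -/
def weil (q : ℕ) (h : ℤ[X]) : ℤ[X] :=
  ∑ i ∈ Finset.range (h.natDegree + 1),
    C (h.coeff i) * (X ^ 2 + C (q : ℤ)) ^ i * X ^ (h.natDegree - i)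

/-- Its roots, the Frobenius eigenvalues of `h`. -/
def Eig (q : ℕ) (h : ℤ[X]) : Set Qbar := {a | a ≠ 0 ∧ aeval (a + (q : Qbar) / a) h = 0}

/-- The eigenvalues are conjugate, not supersingular, and different ones do not differ by a root of
unity. -/
def Simple (q : ℕ) : Set ℤ[X] :=
  {h | 1 ≤ h.natDegree ∧ h ∈ RealWeil h.natDegree q ∧
    (∀ a ∈ Eig q h, ∀ b ∈ Eig q h, ∃ σ : Qbar ≃ₐ[ℚ] Qbar, σ a = b) ∧
    (∀ a ∈ Eig q h, ∀ N : ℕ, 1 ≤ N → a ^ (2 * N) ≠ (q : Qbar) ^ N) ∧
    ∀ a ∈ Eig q h, ∀ b ∈ Eig q h, ∀ M : ℕ, 1 ≤ M → a ^ M = b ^ M → a = b}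

/-- Geometrically simple ordinary of dimension at most 3. -/
def Small (q : ℕ) : Set ℤ[X] :=
  {h | h ∈ Simple q ∧ h ∈ Ordinary h.natDegree q ∧ (Eig q h).ncard = 2 * h.natDegree ∧
    h.natDegree ≤ 3}

/-- Ordinary with the largest possible Galois group: there are `2 g` eigenvalues, and every
permutation of them compatible with `a ↦ q / a` is induced by an automorphism. -/
def Full (q : ℕ) : Set ℤ[X] :=
  {h | 1 ≤ h.natDegree ∧ h ∈ Ordinary h.natDegree q ∧ (Eig q h).ncard = 2 * h.natDegree ∧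
    ∀ τ : Qbar → Qbar, Set.BijOn τ (Eig q h) (Eig q h) →
      (∀ a ∈ Eig q h, τ ((q : Qbar) / a) = (q : Qbar) / τ a) →
      ∃ σ : Qbar ≃ₐ[ℚ] Qbar, ∀ a ∈ Eig q h, σ a = τ a}

/-- Geometric isogeny: two eigenvalues differ by a root of unity. -/
def Isog (q : ℕ) (h h' : ℤ[X]) : Prop :=
  ∃ a ∈ Eig q h, ∃ a' ∈ Eig q h', ∃ N : ℕ, 1 ≤ N ∧ a ^ N = a' ^ N

open Classical in
/-- The CM type of an ordinary eigenvalue `a`, for an absolute value `v` over `p`: `-1` at `σ` if
`σ a` is not a unit at `v`, else `1`. -/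
def cmType (v : AbsoluteValue Qbar ℝ) (a : Qbar) (σ : Qbar ≃ₐ[ℚ] Qbar) : ℚ :=
  if v (σ a) < 1 then -1 else 1

/-- The criterion.  All members named are pairwise not geometrically isogenous. -/
structure Good (q : ℕ) (S : Set ℤ[X]) : Prop where
  /-- no three surfaces have the same splitting field -/
  surfaces : ∀ h : Fin 3 → ℤ[X], (∀ i, h i ∈ S ∧ (h i).natDegree = 2) →
    (∀ i j, i ≠ j → ¬ Isog q (h i) (h j)) →
    ¬ ∀ i j, adjoin ℚ (Eig q (h i)) = adjoin ℚ (Eig q (h j))
  /-- no three threefolds with an imaginary quadratic subfield have the same splitting field -/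
  threefolds : ∀ h : Fin 3 → ℤ[X], (∀ i, h i ∈ S ∧ (h i).natDegree = 3 ∧ ∃ a ∈ Eig q (h i),
      ∃ (θ : Qbar) (r : ℚ), r < 0 ∧ θ ^ 2 = (r : Qbar) ∧ θ ∈ ℚ⟮a⟯) →
    (∀ i j, i ≠ j → ¬ Isog q (h i) (h j)) →
    ¬ ∀ i j, adjoin ℚ (Eig q (h i)) = adjoin ℚ (Eig q (h j))
  /-- the CM types of eigenvalues generating the same field are linearly independent -/
  types : ∀ v : AbsoluteValue Qbar ℝ, IsNonarchimedean v → v ((q.minFac : ℕ) : Qbar) < 1 →
    ∀ (n : ℕ) (h : Fin n → ℤ[X]) (a : Fin n → Qbar), (∀ i, h i ∈ S ∧ a i ∈ Eig q (h i)) →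
    (∀ i j, i ≠ j → ¬ Isog q (h i) (h j)) → (∀ i j, ℚ⟮a i⟯ = ℚ⟮a j⟯) →
    LinearIndependent ℚ (fun i => cmType v (a i))

/-- Weil blocks: the conjugates of `a` and of `a'` over an imaginary quadratic field `ℚ (θ)`
contained in `ℚ (a)` and `ℚ (a')`, for eigenvalues `a`, `a'` of two members which are not isogenous, if
their product is a power of `q` up to a root of unity. -/
def WeilBlock (q : ℕ) (S : Set ℤ[X]) (w : List Qbar) : Prop :=
  ∃ h ∈ S, ∃ h' ∈ S, ¬ Isog q h h' ∧ ∃ a ∈ Eig q h, ∃ a' ∈ Eig q h', ∃ (θ : Qbar) (r : ℚ),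
    r < 0 ∧ θ ^ 2 = (r : Qbar) ∧ θ ∈ ℚ⟮a⟯ ∧ θ ∈ ℚ⟮a'⟯ ∧ w.Nodup ∧
    (∀ z, z ∈ w ↔ ∃ σ : Qbar ≃ₐ[ℚ] Qbar, σ θ = θ ∧ (σ a = z ∨ σ a' = z)) ∧
    ∃ i M : ℕ, 1 ≤ M ∧ w.length = 2 * i ∧ w.prod ^ M = ((q : Qbar) ^ i) ^ M

/-- Admissible eigenvalues: up to roots of unity, supersingular or an eigenvalue of a member of
`S`. -/
def Adm (q : ℕ) (S : Set ℤ[X]) {K : Type} [Field K] (z : K) : Prop :=
  ∃ N : ℕ, 1 ≤ N ∧
    (z ^ (2 * N) = (q : K) ^ N ∨ ∃ h ∈ S, ∃ r : K, aeval r (weil q h) = 0 ∧ z ^ N = r ^ N)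

section

variable {K : Type} [Field K] {V : Type} [AddCommGroup V] [Module K V]

/-- Geometric Tate classes of degree `2 j`. -/
def TateClasses (F : Module.End K V) (q j : ℕ) : Set (ExteriorAlgebra K V) :=
  {x | x ∈ ⋀[K]^(2 * j) V ∧ ∃ N : ℕ, 1 ≤ N ∧
    ExteriorAlgebra.map (F ^ N) x = (q : K) ^ (j * N) • x}

/-- Weil classes: products of geometric eigenvectors for the elements of a Weil block. -/
def WeilClasses (F : Module.End K V) (q : ℕ) (S : Set ℤ[X]) : Set (ExteriorAlgebra K V) :=
  {y | ∃ (ι : Qbar →+* K) (w : List Qbar) (l : List V) (M : ℕ), WeilBlock q S w ∧ 1 ≤ M ∧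
    List.Forall₂ (fun z u => (F ^ M) u = (ι z) ^ M • u) w l ∧
    y = (l.map (ExteriorAlgebra.ι K)).prod}

end

/-- All geometric Tate classes, on all `V` over algebraically closed fields of characteristic 0 with
a semisimple endomorphism `F` with admissible eigenvalues, are polynomials in geometric Tate classes
of degree 2 and Weil classes. -/
def Generated (q : ℕ) (S : Set ℤ[X]) : Prop :=
  ∀ (K : Type) [Field K] [IsAlgClosed K] [CharZero K] (V : Type) [AddCommGroup V] [Module K V]
    [Module.Finite K V] (F : Module.End K V), F.IsSemisimple →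
    (∀ z : K, F.charpoly.IsRoot z → Adm q S z) →
    ∀ j : ℕ, TateClasses F q j ⊆ Algebra.adjoin K (TateClasses F q 1 ∪ WeilClasses F q S)

/-- There are members `h k` of `S` and exponents `e k` such that on every `V` with a semisimple
endomorphism `F` whose characteristic polynomial is divisible by the product of the
`weil q (h k) ^ e k` some geometric Tate class is not a polynomial in those of degree 2 and Weil
classes. -/
def NotGenerated (q : ℕ) (S : Set ℤ[X]) : Prop :=
  ∃ (n : ℕ) (h : Fin n → ℤ[X]) (e : Fin n → ℕ), (∀ k, h k ∈ S) ∧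
    ∀ (K : Type) [Field K] [IsAlgClosed K] [CharZero K] (V : Type) [AddCommGroup V]
      [Module K V] [Module.Finite K V] (F : Module.End K V), F.IsSemisimple →
      ∏ k, ((weil q (h k)).map (Int.castRingHom K)) ^ e k ∣ F.charpoly →
      ∃ j : ℕ, ¬ TateClasses F q j ⊆ Algebra.adjoin K (TateClasses F q 1 ∪ WeilClasses F q S)

/-- There are members `h k` of `S` and exponents `e k` such that on every `V` with a semisimple
endomorphism `F` whose characteristic polynomial is divisible by the product of the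
`weil q (h k) ^ e k` some geometric Tate class is not a polynomial in those of degree 2. -/
def NotDivisorial (q : ℕ) (S : Set ℤ[X]) : Prop :=
  ∃ (n : ℕ) (h : Fin n → ℤ[X]) (e : Fin n → ℕ), (∀ k, h k ∈ S) ∧
    ∀ (K : Type) [Field K] [CharZero K] (V : Type) [AddCommGroup V]
      [Module K V] [Module.Finite K V] (F : Module.End K V), F.IsSemisimple →
      ∏ k, ((weil q (h k)).map (Int.castRingHom K)) ^ e k ∣ F.charpoly →
      ∃ j : ℕ, ¬ TateClasses F q j ⊆ Algebra.adjoin K (TateClasses F q 1)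

/-! ### Comparison with the definitions of the proof -/

theorem tate_one {K : Type} [Field K] {V : Type} [AddCommGroup V] [Module K V]
    (F : Module.End K V) (q : ℕ) : TateClasses F q 1 = TJ3.Deg2g F (q : K) := by
  have key : ∀ x, x ∈ TateClasses F q 1 ↔ x ∈ TJ3.Deg2g F (q : K) := by
    intro x
    constructor
    · rintro ⟨h1, N, hN, h2⟩
      exact ⟨h1, N, hN, by rw [one_mul] at h2; exact h2⟩
    · rintro ⟨h1, N, hN, h2⟩
      exact ⟨h1, N, hN, by rw [one_mul]; exact h2⟩
  exact Set.ext key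

theorem weil_classes {K : Type} [Field K] {V : Type} [AddCommGroup V] [Module K V]
    (F : Module.End K V) (q : ℕ) (S : Set ℤ[X]) : WeilClasses F q S = TJ6.Wcl q S F := rfl

theorem union_eq (q : ℕ) : Small q ∪ Full q = TJ5.O3 q ∪ TJ2.FO q := rfl

/-- the criterion for one absolute value -/
theorem good_iff (q : ℕ) (S : Set ℤ[X]) (hS : S ⊆ Small q ∪ Full q) :
    Good q S ↔ TJ6.Sf q S ∧ TJ6.T3 q S ∧ ∀ v, TJ4.Ab q v → TJ6.Ty q v S := by
  have hc : ∀ h ∈ S, (Eig q h).ncard = 2 * h.natDegree := by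
    intro h hh
    rcases hS hh with h1 | h1
    · exact h1.2.2.1
    · exact h1.2.2.1
  constructor
  · intro H
    refine ⟨H.surfaces, fun h hh hn => H.threefolds h (fun i => ⟨(hh i).1, ?_, ?_⟩) hn,
      fun v hv => H.types v hv.na hv.lt⟩
    · have h1 := (hh i).2.1
      have h2 := hc _ (hh i).1
      have h3 : (Eig q (h i)).ncard = 6 := h1
      omega
    · obtain ⟨a, ha, θ, r, h1, h2, h3, -⟩ := (hh i).2.2
      exact ⟨a, ha, θ, r, h1, h2, h3⟩
  · rintro ⟨H1, H2, H3⟩
    refine ⟨H1, fun h hh hn => H2 h (fun i => ⟨(hh i).1, ?_, ?_⟩) hn,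
      fun v h1 h2 => H3 v ⟨h1, h2⟩⟩
    · have h1 := hc _ (hh i).1
      rw [(hh i).2.1] at h1
      exact h1
    · obtain ⟨a, ha, θ, r, h1, h2, h3⟩ := (hh i).2.2
      exact ⟨a, ha, θ, r, h1, h2, h3, h3⟩

theorem generated (q : ℕ) (S : Set ℤ[X]) (H : TJ6.Pos q S) : Generated q S := by
  intro K _ _ _ V _ _ _ F hF hadm j x hx
  obtain ⟨hx1, N, hN, hx2⟩ := hx
  rw [tate_one, weil_classes]
  exact H K V F hF hadm j N x hN hx1 hx2

theorem not_generated (q : ℕ) (S : Set ℤ[X]) (H : TJ6.Neg q S) : NotGenerated q S := by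
  obtain ⟨n, h, e, hh, H⟩ := H
  refine ⟨n, h, e, hh, fun K _ _ _ V _ _ _ F hF hdvd => ?_⟩
  obtain ⟨j, N, x, hN, hx1, hx2, hx3⟩ := H K V F hF hdvd
  refine ⟨j, fun hcon => hx3 ?_⟩
  rw [tate_one, weil_classes] at hcon
  exact hcon ⟨hx1, N, hN, hx2⟩

theorem not_divisorial (q : ℕ) (S : Set ℤ[X]) (H : TJ6.NLe q S) : NotDivisorial q S := by
  obtain ⟨n, h, e, hh, H⟩ := H
  refine ⟨n, h, e, hh, fun K _ _ V _ _ _ F hF hdvd => ?_⟩
  obtain ⟨j, N, x, hN, hx1, hx2, hx3⟩ := H K V F hF hdvd
  refine ⟨j, fun hcon => hx3 ?_⟩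
  rw [tate_one] at hcon
  exact hcon ⟨hx1, N, hN, hx2⟩

/-- **Theorem.** Let `q` be a prime power and `S` a set of members of `Small q` and `Full q`.  All
geometric Tate classes on all products with factors from `S` and supersingular ones are polynomials
in Tate classes of degree 2 and Weil classes if and only if `S` is `Good`; if there is a Weil
block, Tate classes of degree 2 are not enough.  There are `Good` sets `R q` in `Full q` without Weil
blocks which contain, for every `g ≥ 1`, a proportion of `Ordinary g q` tending to 1 for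
`q → ∞`. -/
theorem result :
    (∀ q : ℕ, IsPrimePow q → ∀ S ⊆ Small q ∪ Full q,
      (Good q S → Generated q S) ∧ (¬ Good q S → NotGenerated q S) ∧
      ((∃ w, WeilBlock q S w) → NotDivisorial q S)) ∧
    ∃ R : ℕ → Set ℤ[X],
      (∀ q : ℕ, IsPrimePow q → R q ⊆ Full q ∧ Good q (R q) ∧ ¬ ∃ w, WeilBlock q (R q) w) ∧
      ∀ g : ℕ, 1 ≤ g → Tendsto
        (fun q : {q : ℕ // IsPrimePow q} => ((R q ∩ Ordinary g q).ncard : ℝ) /
          (Ordinary g q).ncard) atTop (nhds 1) := by
  refine ⟨fun q hq S hS => ?_, TJ2.Sel, fun q hq => ?_, fun g hg => TJ2.density hg⟩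
  · obtain ⟨v, hv⟩ := TJ4.t_EXV q hq
    have hCW : S ⊆ TJ6.CW q := fun h hh => (TJ6.of_props q v hq hv TJ6.t_TYI6 h (hS hh)).2.2.2.1
    have hF : ∀ v', TJ4.Ab q v' → (TJ6.Con q v' S ↔ TJ6.Sf q S ∧ TJ6.Ty q v' S ∧ TJ6.T3 q S) :=
      fun v' hv' => TJ6.c_FUL6 q v' hq hv' S hS
    refine ⟨fun hK => ?_, fun hK => ?_, fun hw => ?_⟩
    · obtain ⟨h1, h2, h3⟩ := (good_iff q S hS).1 hK
      exact generated q S (((TJ6.main q v hq hv).1 S hCW).1 ((hF v hv).2 ⟨h1, h3 v hv, h2⟩))
    · refine not_generated q S ?_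
      rw [good_iff q S hS] at hK
      by_cases h1 : TJ6.Sf q S ∧ TJ6.T3 q S
      · have h2 : ∃ v', TJ4.Ab q v' ∧ ¬ TJ6.Ty q v' S := by
          by_contra hcon
          push Not at hcon
          exact hK ⟨h1.1, h1.2, hcon⟩
        obtain ⟨v', hv', h3⟩ := h2
        exact ((TJ6.main q v' hq hv').1 S hCW).2.1 fun h4 => h3 ((hF v' hv').1 h4).2.1
      · exact ((TJ6.main q v hq hv).1 S hCW).2.1 fun h4 =>
          h1 ⟨((hF v hv).1 h4).1, ((hF v hv).1 h4).2.2⟩
    · exact not_divisorial q S (((TJ6.main q v hq hv).1 S hCW).2.2 hw)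
  · have hR : TJ2.Sel q ⊆ Small q ∪ Full q := fun h hh => Or.inr ⟨hh.1.1, hh.1.2.1, hh.1.2.2⟩
    obtain ⟨v, hv⟩ := TJ4.t_EXV q hq
    refine ⟨fun h hh => ⟨hh.1.1, hh.1.2.1, hh.1.2.2⟩, (good_iff q _ hR).2 ⟨?_, ?_, ?_⟩, ?_⟩
    · exact ((TJ6.c_FUL6 q v hq hv _ hR).1 (TJ6.main q v hq hv).2.2.2.1).1
    · exact ((TJ6.c_FUL6 q v hq hv _ hR).1 (TJ6.main q v hq hv).2.2.2.1).2.2
    · intro v' hv'
      exact ((TJ6.c_FUL6 q v' hq hv' _ hR).1 (TJ6.main q v' hq hv').2.2.2.1).2.1
    · rintro ⟨w, hw⟩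
      exact (TJ6.main q v hq hv).2.2.2.2 w hw

end

end Pool.Agent.Results.MP_3af9db_ag.TateAndWeilClasses
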